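import Pool.Agent.W712.RP.Stm

set_option autoImplicit false

open MeasureTheory Set Filter Topology
open scoped ENNReal

namespace Pool.Agent.W342.RP

open Pool.Agent.W712.RP

theorem cap (hH : S_HEL) : S_CAP := by
  intro E _ _ _ _ _ μ _ L hL hd l c
  have hdpos : (0 : ℝ) < (Module.finrank ℝ E : ℝ) := by exact_mod_cast hd
  have hd1 : (1 : ℝ) ≤ (Module.finrank ℝ E : ℝ) := by exact_mod_cast hd
  have hH' := hH E
  have haddH := fun (x : E) (r : ℝ) (s : Set E) => Measure.addHaar_image_homothety μ x r s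
  generalize hdd : (Module.finrank ℝ E) = d at *
  set C : Set E := {y | c ≤ l y} ∩ L with hC
  have hCcl : IsClosed C := (isClosed_le continuous_const l.continuous).inter hL.compact.isClosed
  have hCcomp : IsCompact C := hL.compact.of_isClosed_subset hCcl (fun y hy => hy.2)
  have hCconv : Convex ℝ C := by
    have h1 : Convex ℝ {y : E | c ≤ l y} := convex_halfSpace_ge l.toLinearMap.isLinear c
    exact h1.inter hL.convex
  have hmeasL : MeasurableSet L := hL.compact.isClosed.measurableSet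
  have hunif : ∀ A : Set E, unif μ L A = (μ L)⁻¹ * μ (A ∩ L) := by
    intro A
    simp only [unif, Measure.smul_apply, smul_eq_mul]
    rw [Measure.restrict_apply' hmeasL]
  rcases C.eq_empty_or_nonempty with hCe | hCn
  · rw [hunif {y | c ≤ l y}, ← hC, hCe]
    simp
  obtain ⟨z0, hz0, hz0H⟩ := hH' C hd hCconv hCcomp hCn
  set Z : Set E := {z | z0 + (2 : ℝ) • (z - z0) ∈ C ∧ z0 - (2 : ℝ) • (z - z0) ∈ C} with hZ
  -- Volume comparison
  have hvol : μ C ≤ ENNReal.ofReal ((2 * (d : ℝ)) ^ d) * μ Z := by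
    have hsub : AffineMap.homothety z0 ((2 * (d : ℝ))⁻¹) '' C ⊆ Z := by
      rintro _ ⟨y, hy, rfl⟩
      have e1 : (AffineMap.homothety z0 ((2 * (d : ℝ))⁻¹)) y - z0 = (2 * (d : ℝ))⁻¹ • (y - z0) := by
        simp [AffineMap.homothety_apply]
      refine ⟨?_, ?_⟩
      · rw [e1, smul_smul]
        have e2 : (2 : ℝ) * (2 * (d : ℝ))⁻¹ = (d : ℝ)⁻¹ := by field_simp
        rw [e2]
        have hdi : (d : ℝ)⁻¹ ≤ 1 := inv_le_one_of_one_le₀ hd1
        have := hCconv hz0 hy (a := 1 - (d : ℝ)⁻¹) (b := (d : ℝ)⁻¹) (by linarith) (by positivity) (by ring)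
        convert this using 1
        module
      · rw [e1, smul_smul]
        have e2 : (2 : ℝ) * (2 * (d : ℝ))⁻¹ = (d : ℝ)⁻¹ := by field_simp
        rw [e2]
        exact hz0H y hy
    have h1 := haddH z0 ((2 * (d : ℝ))⁻¹) C
    have h2 : μ (AffineMap.homothety z0 ((2 * (d : ℝ))⁻¹) '' C) ≤ μ Z := measure_mono hsub
    rw [h1] at h2
    have h3 : |((2 * (d : ℝ))⁻¹) ^ d| = ((2 * (d : ℝ)) ^ d)⁻¹ := by
      rw [abs_of_nonneg (by positivity), inv_pow]
    rw [h3] at h2
    have hp : (0 : ℝ) < (2 * (d : ℝ)) ^ d := by positivity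
    calc μ C = ENNReal.ofReal ((2 * (d : ℝ)) ^ d) * (ENNReal.ofReal (((2 * (d : ℝ)) ^ d)⁻¹) * μ C) := by
          rw [← mul_assoc, ← ENNReal.ofReal_mul hp.le, mul_inv_cancel₀ hp.ne']
          simp
      _ ≤ _ := by gcongr
  -- points of Z
  have hZC : ∀ z ∈ Z, z ∈ C := by
    intro z hz
    have := hCconv hz0 hz.1 (a := 1/2) (b := 1/2) (by norm_num) (by norm_num) (by norm_num)
    convert this using 1
    module
  set T : Set E := {z | (∀ y ∈ L, c ≤ l y → y ∈ Mac L z (2 * (d : ℝ) + 1)) ∧
        macP μ L z ≤ 2 * unif μ L {y | c ≤ l y}} with hT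
  have hZT : Z ⊆ T := by
    intro z hz
    have hzC := hZC z hz
    refine ⟨?_, ?_⟩
    · intro y hyL hyc
      have hyC : y ∈ C := ⟨hyc, hyL⟩
      have hm : (0 : ℝ) < 2 * (d : ℝ) + 1 := by positivity
      set m : ℝ := (2 * (d : ℝ) + 1)⁻¹ with hmdef
      have hm0 : 0 < m := by positivity
      have hm1 : m ≤ 1 := inv_le_one_of_one_le₀ (by linarith)
      have hmeq : m * (2 * (d : ℝ) + 1) = 1 := inv_mul_cancel₀ hm.ne'
      refine ⟨?_, ?_⟩
      · have := hL.convex hzC.2 hyL (a := 1 - m) (b := m) (by linarith) hm0.le (by ring)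
        convert this using 1
        module
      · have hA := hz.1
        have hB := hz0H y hyC
        have := hCconv hA hB (a := (1 + m) / 2) (b := m * d) (by positivity) (by positivity)
          (by linarith)
        have h5 : z - m • (y - z) = ((1 + m) / 2) • (z0 + (2 : ℝ) • (z - z0)) +
            (m * d) • (z0 - (d : ℝ)⁻¹ • (y - z0)) := by
          have h6 : (m * d) • (z0 - (d : ℝ)⁻¹ • (y - z0)) = (m * d) • z0 - m • (y - z0) := by
            rw [smul_sub, smul_smul]
            congr 2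
            field_simp
          rw [h6]
          have h7 : m * d = 1/2 - m/2 := by linarith
          rw [h7]
          module
        rw [h5]
        exact this.2
    · have hML : ∀ y, y ∈ Mac L z 1 ↔ y ∈ L ∧ (2 : ℝ) • z - y ∈ L := by
        intro y
        have e1 : z + (1 : ℝ)⁻¹ • (y - z) = y := by simp
        have e2 : z - (1 : ℝ)⁻¹ • (y - z) = (2 : ℝ) • z - y := by
          rw [inv_one, one_smul, two_smul]; abel
        simp only [Mac, mem_ofPred_eq, e1, e2]
      rw [macP, hunif, hunif, ← hC, ← mul_assoc, mul_comm (2 : ℝ≥0∞), mul_assoc]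
      gcongr
      set M : Set E := Mac L z 1 ∩ {y | l z ≤ l y} with hM
      have hsub : Mac L z 1 ∩ L ⊆ M ∪ AffineMap.homothety z (-1 : ℝ) '' M := by
        intro y hy
        rcases le_total (l z) (l y) with h | h
        · exact Or.inl ⟨hy.1, h⟩
        · refine Or.inr ⟨(2 : ℝ) • z - y, ⟨?_, ?_⟩, ?_⟩
          · rw [hML]
            refine ⟨((hML y).1 hy.1).2, ?_⟩
            have : (2 : ℝ) • z - ((2 : ℝ) • z - y) = y := by abel
            rw [this]; exact hy.2
          · simp only [mem_ofPred_eq, map_sub, map_smul, smul_eq_mul]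
            linarith
          · simp only [AffineMap.homothety_apply, vsub_eq_sub, vadd_eq_add]
            module
      have hMC : M ⊆ C := by
        intro y hy
        have h1 : c ≤ l z := hzC.1
        have h2 : l z ≤ l y := hy.2
        have h3 : c ≤ l y := h1.trans h2
        exact ⟨h3, ((hML y).1 hy.1).1⟩
      calc μ (Mac L z 1 ∩ L) ≤ μ (M ∪ AffineMap.homothety z (-1 : ℝ) '' M) := measure_mono hsub
        _ ≤ μ M + μ (AffineMap.homothety z (-1 : ℝ) '' M) := measure_union_le _ _
        _ = μ M + μ M := by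
            rw [haddH]
            simp
        _ ≤ μ C + μ C := by gcongr
        _ = 2 * μ C := by rw [two_mul]
  rw [hunif {y | c ≤ l y}, ← hC, hunif T, ← mul_assoc, mul_comm (ENNReal.ofReal _), mul_assoc]
  gcongr
  refine hvol.trans ?_
  gcongr
  intro z hz
  exact ⟨hZT hz, (hZC z hz).2⟩

end Pool.Agent.W342.RP
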